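import Pool.Agent.Helper33.IP5

/-!
`MP_dec849_al`: the Interval Property fails for `h`-vectors of artinian level algebras.
The definitions are in `Pool/Agent/Helper33/IPDefs.lean`.
-/

set_option autoImplicit false

namespace Pool.Agent.Results.MP_dec849_al.IntervalPropertyFails

open Helper33.IP

universe u

/-- The sequence `(1, 15, a, 12, 2, 0, 0, ...)`. -/
def seq (a : ℕ) : ℕ → ℕ
  | 0 => 1
  | 1 => 15
  | 2 => a
  | 3 => 12
  | 4 => 2
  | _ => 0

theorem seq_update (a b : ℕ) : Function.update (seq a) 2 b = seq b := by
  funext d
  match d with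
  | 0 => rfl
  | 1 => rfl
  | 2 => rfl
  | 3 => rfl
  | 4 => rfl
  | d + 5 =>
    rw [Function.update_of_ne (by omega)]
    rfl

theorem cardA : ∀ d, seq 15 d = Fintype.card {s // dataA.deg s = d}
  | 0 => by decide +kernel
  | 1 => by decide +kernel
  | 2 => by decide +kernel
  | 3 => by decide +kernel
  | 4 => by decide +kernel
  | d + 5 => by
    have h : ∀ s : Fin 45, degA s < 5 := by decide +kernel
    symm
    apply Fintype.card_eq_zero_iff.2
    constructor
    rintro ⟨s, hs⟩
    have h1 := h s
    have h2 : degA s = d + 5 := hs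
    omega

theorem cardB : ∀ d, seq 18 d = Fintype.card {s // dataB.deg s = d}
  | 0 => by decide +kernel
  | 1 => by decide +kernel
  | 2 => by decide +kernel
  | 3 => by decide +kernel
  | 4 => by decide +kernel
  | d + 5 => by
    have h : ∀ s : Fin 48, degB s < 5 := by decide +kernel
    symm
    apply Fintype.card_eq_zero_iff.2
    constructor
    rintro ⟨s, hs⟩
    have h1 := h s
    have h2 : degB s = d + 5 := hs
    omega

/-- `(1, 15, 15, 12, 2)` is the `h`-vector of a level algebra. -/
theorem level15 (K : Type u) [Field K] : seq 15 ∈ levelHVectors K :=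
  ⟨15, dataA.ideal K, dataA.isLevel K, fun d => by rw [ActData.hVector_eq, cardA]⟩

/-- `(1, 15, 18, 12, 2)` is the `h`-vector of a level algebra. -/
theorem level18 (K : Type u) [Field K] : seq 18 ∈ levelHVectors K :=
  ⟨15, dataB.ideal K, dataB.isLevel K, fun d => by rw [ActData.hVector_eq, cardB]⟩

/-- `(1, 15, 17, 12, 2)` is not the `h`-vector of a level algebra. -/
theorem not_level17 (K : Type u) [Field K] : seq 17 ∉ levelHVectors K :=
  not_level rfl rfl rfl rfl rfl

theorem not_interval (K : Type u) [Field K] : ¬ IntervalProperty (levelHVectors K) := by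
  intro h
  have h1 := h (seq 15) (level15 K) 2 3 (by norm_num)
    (by rw [seq_update]; exact level18 K) 2 (by norm_num) (by norm_num)
  rw [seq_update] at h1
  exact not_level17 K h1

/-- Over every field `K`, the sequences `(1, 15, 15, 12, 2)` and `(1, 15, 18, 12, 2)` are
`h`-vectors of artinian level `K`-algebras, while `(1, 15, 17, 12, 2)` is not; hence the set of
`h`-vectors of artinian level `K`-algebras does not have the Interval Property. -/
theorem result (K : Type u) [Field K] :
    seq 15 ∈ levelHVectors K ∧ seq 18 ∈ levelHVectors K ∧ seq 17 ∉ levelHVectors K ∧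
      ¬ IntervalProperty (levelHVectors K) :=
  ⟨level15 K, level18 K, not_level17 K, not_interval K⟩

end Pool.Agent.Results.MP_dec849_al.IntervalPropertyFails
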